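import Mathlib
import Pool.Agent.N395.HemiDefs
import Pool.Agent.N395.GewProof

/-!
MP_d2fb05_co, full answer to Q1 (disproof): a hemisystem of a generalized quadrangle of order
`(9, 3)` for which restriction from the stabiliser of the hemisystem to the automorphism group of
its graph is not surjective.
-/

set_option autoImplicit false

namespace Pool.Agent.Results.MP_d2fb05_co.NotSurjective

open Pool.Agent.N395.Hemi

/-- There are a finite generalized quadrangle of order `(s ^ 2, s)` with `s = 3`, a hemisystem `H`
of it and an automorphism `g` of the graph of `H` which is not the restriction to `H` of a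
collineation `(σ, τ)` of the quadrangle fixing `H` setwise. -/
theorem result : ∃ (P L : Type) (_ : Finite P) (_ : Finite L) (_ : Nonempty P)
    (I : P → L → Prop) (H : Set L), IsGQ I (3 ^ 2) 3 ∧ IsHemisystem I 3 H ∧
      ∃ g : hemiGraph I H ≃g hemiGraph I H,
        ¬ ∃ (σ : Equiv.Perm P) (τ : Equiv.Perm L),
          (∀ p l, I (σ p) (τ l) ↔ I p l) ∧ τ '' H = H ∧ ∀ l : H, τ l = g l :=
  ⟨Fin 280, Fin 112, inferInstance, inferInstance, inferInstance, Pool.Agent.N395.Gew.I,
    Pool.Agent.N395.Gew.H, Pool.Agent.N395.Gew.isGQ, Pool.Agent.N395.Gew.isHemi,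
    Pool.Agent.N395.Gew.gaut, Pool.Agent.N395.Gew.not_induced⟩

end Pool.Agent.Results.MP_d2fb05_co.NotSurjective
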